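import Mathlib.RingTheory.MvPolynomial.Homogeneous
import Mathlib.Analysis.Complex.Polynomial.Basic
import Mathlib.Tactic

set_option autoImplicit false

open MvPolynomial

namespace Pool.Agent.Results.MP_1e0c69_ag.AdjoinVariable

/-- The Waring rank of a form `F` of degree `d`: the least `w` such that `F` is a sum of
`w` many `d`-th powers of linear forms (homogeneous polynomials of degree one, zero included). -/
noncomputable def waringRank {σ : Type} (d : ℕ) (F : MvPolynomial σ ℂ) : ℕ :=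
  sInf {w : ℕ | ∃ L : Fin w → MvPolynomial σ ℂ,
    (∀ i, (L i).IsHomogeneous 1) ∧ F = ∑ i, L i ^ d}

/-- The form `f + u g`, where `u` is a new variable (the variable indexed by `none`). -/
noncomputable def adjoinVar {n : ℕ} (f g : MvPolynomial (Fin n) ℂ) :
    MvPolynomial (Option (Fin n)) ℂ :=
  rename some f + X none * rename some g

/-- A linear form in three variables evaluates as a linear function. -/
lemma eval_linear (L : MvPolynomial (Fin 3) ℂ) (hL : L.IsHomogeneous 1) :
    ∃ a b c : ℂ, ∀ x y z : ℂ, eval ![x, y, z] L = a * x + b * y + c * z := by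
  have h : L ∈ homogeneousSubmodule (Fin 3) ℂ 1 := hL
  rw [homogeneousSubmodule_one_eq_span_X] at h
  induction h using Submodule.span_induction with
  | mem x hx =>
    obtain ⟨i, rfl⟩ := hx
    fin_cases i
    · exact ⟨1, 0, 0, by intro x y z; simp⟩
    · exact ⟨0, 1, 0, by intro x y z; simp⟩
    · exact ⟨0, 0, 1, by intro x y z; simp⟩
  | zero => exact ⟨0, 0, 0, by intro x y z; simp⟩
  | add p q hp hq ihp ihq =>
    obtain ⟨a, b, c, h1⟩ := ihp (by
      rw [← mem_homogeneousSubmodule, homogeneousSubmodule_one_eq_span_X]; exact hp)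
    obtain ⟨a', b', c', h2⟩ := ihq (by
      rw [← mem_homogeneousSubmodule, homogeneousSubmodule_one_eq_span_X]; exact hq)
    exact ⟨a + a', b + b', c + c', by intro x y z; rw [map_add, h1, h2]; ring⟩
  | smul r p hp ih =>
    obtain ⟨a, b, c, h1⟩ := ih (by
      rw [← mem_homogeneousSubmodule, homogeneousSubmodule_one_eq_span_X]; exact hp)
    exact ⟨r * a, r * b, r * c, by intro x y z; rw [smul_eval, h1]; ring⟩

/-- The cubic `w·e₂ - xyz` is never a sum of two cubes of linear forms. -/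
lemma no_two_cubes (w1 w2 w3 a1 a2 a3 b1 b2 b3 : ℂ)
    (h : ∀ x y z : ℂ, (w1 * x + w2 * y + w3 * z) * (x * y + y * z + z * x) - x * y * z
      = (a1 * x + a2 * y + a3 * z) ^ 3 + (b1 * x + b2 * y + b3 * z) ^ 3) : False := by
  have e1 : a1 ^ 3 + b1 ^ 3 = 0 := by have := h 1 0 0; linear_combination -this
  have e2 : a2 ^ 3 + b2 ^ 3 = 0 := by have := h 0 1 0; linear_combination -this
  have e3 : a3 ^ 3 + b3 ^ 3 = 0 := by have := h 0 0 1; linear_combination -this
  have p12 := h 1 1 0
  have m12 := h 1 (-1) 0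
  have p13 := h 1 0 1
  have m13 := h 1 0 (-1)
  have p23 := h 0 1 1
  have m23 := h 0 1 (-1)
  have p123 := h 1 1 1
  have c12 : 3 * (a1 ^ 2 * a2 + b1 ^ 2 * b2) = w1 := by
    linear_combination -(1/2) * p12 + (1/2) * m12 - e2
  have c21 : 3 * (a2 ^ 2 * a1 + b2 ^ 2 * b1) = w2 := by
    linear_combination -(1/2) * p12 - (1/2) * m12 - e1
  have c13 : 3 * (a1 ^ 2 * a3 + b1 ^ 2 * b3) = w1 := by
    linear_combination -(1/2) * p13 + (1/2) * m13 - e3
  have c31 : 3 * (a3 ^ 2 * a1 + b3 ^ 2 * b1) = w3 := by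
    linear_combination -(1/2) * p13 - (1/2) * m13 - e1
  have c23 : 3 * (a2 ^ 2 * a3 + b2 ^ 2 * b3) = w2 := by
    linear_combination -(1/2) * p23 + (1/2) * m23 - e3
  have c32 : 3 * (a3 ^ 2 * a2 + b3 ^ 2 * b2) = w3 := by
    linear_combination -(1/2) * p23 - (1/2) * m23 - e2
  have c123 : 6 * (a1 * a2 * a3 + b1 * b2 * b3) = w1 + w2 + w3 - 1 := by
    linear_combination -p123 - e1 - e2 - e3 - c12 - c21 - c13 - c31 - c23 - c32
  -- all the `a i` are nonzero
  have key0 : ∀ a b : ℂ, a ^ 3 + b ^ 3 = 0 → a = 0 → b = 0 := by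
    intro a b hab ha
    rw [ha] at hab
    have : b ^ 3 = 0 := by linear_combination hab
    exact pow_eq_zero_iff (by norm_num) |>.mp this
  have ha1 : a1 ≠ 0 := by
    intro ha
    have hb := key0 _ _ e1 ha
    rw [ha, hb] at c21 c31 c12 c123
    have hw1 : w1 = 0 := by linear_combination -c12
    have hw2 : w2 = 0 := by linear_combination -c21
    have hw3 : w3 = 0 := by linear_combination -c31
    rw [hw1, hw2, hw3] at c123
    norm_num at c123
  have ha2 : a2 ≠ 0 := by
    intro ha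
    have hb := key0 _ _ e2 ha
    rw [ha, hb] at c21 c12 c32 c123
    have hw1 : w1 = 0 := by linear_combination -c12
    have hw2 : w2 = 0 := by linear_combination -c21
    have hw3 : w3 = 0 := by linear_combination -c32
    rw [hw1, hw2, hw3] at c123
    norm_num at c123
  have ha3 : a3 ≠ 0 := by
    intro ha
    have hb := key0 _ _ e3 ha
    rw [ha, hb] at c13 c23 c31 c123
    have hw1 : w1 = 0 := by linear_combination -c13
    have hw2 : w2 = 0 := by linear_combination -c23
    have hw3 : w3 = 0 := by linear_combination -c31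
    rw [hw1, hw2, hw3] at c123
    norm_num at c123
  -- ratios `r i = b i / a i`, cube roots of `-1`
  obtain ⟨r1, hr1⟩ : ∃ r, b1 = r * a1 := ⟨b1 / a1, by field_simp⟩
  obtain ⟨r2, hr2⟩ : ∃ r, b2 = r * a2 := ⟨b2 / a2, by field_simp⟩
  obtain ⟨r3, hr3⟩ : ∃ r, b3 = r * a3 := ⟨b3 / a3, by field_simp⟩
  subst hr1 hr2 hr3
  have q1 : r1 ^ 3 = -1 := by
    have : a1 ^ 3 * (r1 ^ 3 + 1) = 0 := by linear_combination e1
    rcases mul_eq_zero.mp this with h' | h'
    · exact absurd (pow_eq_zero_iff (by norm_num) |>.mp h') ha1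
    · linear_combination h'
  have q2 : r2 ^ 3 = -1 := by
    have : a2 ^ 3 * (r2 ^ 3 + 1) = 0 := by linear_combination e2
    rcases mul_eq_zero.mp this with h' | h'
    · exact absurd (pow_eq_zero_iff (by norm_num) |>.mp h') ha2
    · linear_combination h'
  have q3 : r3 ^ 3 = -1 := by
    have : a3 ^ 3 * (r3 ^ 3 + 1) = 0 := by linear_combination e3
    rcases mul_eq_zero.mp this with h' | h'
    · exact absurd (pow_eq_zero_iff (by norm_num) |>.mp h') ha3
    · linear_combination h'
  -- compare the two expressions for each `w i`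
  have d1 : a2 * (1 + r1 ^ 2 * r2) = a3 * (1 + r1 ^ 2 * r3) := by
    have : a1 ^ 2 * (a2 * (1 + r1 ^ 2 * r2) - a3 * (1 + r1 ^ 2 * r3)) = 0 := by
      linear_combination (1/3) * c12 - (1/3) * c13
    rcases mul_eq_zero.mp this with h' | h'
    · exact absurd (pow_eq_zero_iff (by norm_num) |>.mp h') ha1
    · linear_combination h'
  have d2 : a1 * (1 + r2 ^ 2 * r1) = a3 * (1 + r2 ^ 2 * r3) := by
    have : a2 ^ 2 * (a1 * (1 + r2 ^ 2 * r1) - a3 * (1 + r2 ^ 2 * r3)) = 0 := by
      linear_combination (1/3) * c21 - (1/3) * c23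
    rcases mul_eq_zero.mp this with h' | h'
    · exact absurd (pow_eq_zero_iff (by norm_num) |>.mp h') ha2
    · linear_combination h'
  have d3 : a1 * (1 + r3 ^ 2 * r1) = a2 * (1 + r3 ^ 2 * r2) := by
    have : a3 ^ 2 * (a1 * (1 + r3 ^ 2 * r1) - a2 * (1 + r3 ^ 2 * r2)) = 0 := by
      linear_combination (1/3) * c31 - (1/3) * c32
    rcases mul_eq_zero.mp this with h' | h'
    · exact absurd (pow_eq_zero_iff (by norm_num) |>.mp h') ha3
    · linear_combination h'
  -- `1 + r ^ 2 * s = 0` forces `r = s`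
  have keq : ∀ r s : ℂ, r ^ 3 = -1 → s ^ 3 = -1 → 1 + r ^ 2 * s = 0 → s = r := by
    intro r s hr hs hrs
    have : r * (1 + r ^ 2 * s) = r - s := by linear_combination s * hr
    rw [hrs] at this
    linear_combination this
  have keq' : ∀ r : ℂ, r ^ 3 = -1 → 1 + r ^ 2 * r = 0 := by
    intro r hr; linear_combination hr
  by_cases h12 : r2 = r1
  · subst h12
    have z : a3 * (1 + r2 ^ 2 * r3) = 0 := by
      rw [← d1]; linear_combination a2 * keq' r2 q2
    rcases mul_eq_zero.mp z with h' | h'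
    · exact ha3 h'
    · have h13 := keq _ _ q2 q3 h'
      subst h13
      have w10 : w1 = 0 := by linear_combination -c12 + 3 * a1 ^ 2 * a2 * keq' _ q3
      have w20 : w2 = 0 := by linear_combination -c21 + 3 * a2 ^ 2 * a1 * keq' _ q3
      have w30 : w3 = 0 := by linear_combination -c31 + 3 * a3 ^ 2 * a1 * keq' _ q3
      have : (1 : ℂ) = 0 := by
        linear_combination c123 - 6 * a1 * a2 * a3 * keq' _ q3 + w10 + w20 + w30
      exact one_ne_zero this
  · have h13 : r3 ≠ r1 := by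
      intro h'
      subst h'
      have z : a2 * (1 + r3 ^ 2 * r2) = 0 := by
        rw [d1]; linear_combination a3 * keq' _ q1
      rcases mul_eq_zero.mp z with h'' | h''
      · exact ha2 h''
      · exact h12 (keq _ _ q1 q2 h'')
    have h23 : r3 ≠ r2 := by
      intro h'
      subst h'
      have z : a1 * (1 + r3 ^ 2 * r1) = 0 := by
        rw [d2]; linear_combination a3 * keq' _ q3
      rcases mul_eq_zero.mp z with h'' | h''
      · exact ha1 h''
      · exact h12 (keq _ _ q3 q1 h'').symm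
    -- the three roots are distinct, so they are all the roots of `t ^ 3 + 1`
    have s12 : r1 ^ 2 + r1 * r2 + r2 ^ 2 = 0 := by
      have : (r1 - r2) * (r1 ^ 2 + r1 * r2 + r2 ^ 2) = 0 := by linear_combination q1 - q2
      rcases mul_eq_zero.mp this with h' | h'
      · exact absurd (by linear_combination -h') h12
      · exact h'
    have s13 : r1 ^ 2 + r1 * r3 + r3 ^ 2 = 0 := by
      have : (r1 - r3) * (r1 ^ 2 + r1 * r3 + r3 ^ 2) = 0 := by linear_combination q1 - q3
      rcases mul_eq_zero.mp this with h' | h'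
      · exact absurd (by linear_combination -h') h13
      · exact h'
    have s0 : r1 + r2 + r3 = 0 := by
      have : (r2 - r3) * (r1 + r2 + r3) = 0 := by linear_combination s12 - s13
      rcases mul_eq_zero.mp this with h' | h'
      · exact absurd (by linear_combination -h') h23
      · exact h'
    -- put `t = r2 / r1`, a primitive cube root of one
    have hr1 : r1 ≠ 0 := by
      intro h'; rw [h'] at q1; norm_num at q1
    obtain ⟨t, ht⟩ : ∃ t, r2 = t * r1 := ⟨r2 / r1, by field_simp⟩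
    subst ht
    have ht2 : t ^ 2 + t + 1 = 0 := by
      have : r1 ^ 2 * (t ^ 2 + t + 1) = 0 := by linear_combination s12
      rcases mul_eq_zero.mp this with h' | h'
      · exact absurd (pow_eq_zero_iff (by norm_num) |>.mp h') hr1
      · exact h'
    have hr3 : r3 = t ^ 2 * r1 := by linear_combination s0 - r1 * ht2
    subst hr3
    have ht3 : t ^ 3 = 1 := by linear_combination (t - 1) * ht2
    have ht1 : 1 - t ≠ 0 := by
      intro h'
      have : t = 1 := by linear_combination -h'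
      rw [this] at ht2; norm_num at ht2
    -- d1 : a2 (1 - t) = a3 (1 - t²)
    have D1 : a2 = a3 * (1 + t) := by
      have : (1 - t) * (a2 - a3 * (1 + t)) = 0 := by
        linear_combination d1 - a2 * t * q1 + a3 * t ^ 2 * q1
      rcases mul_eq_zero.mp this with h' | h'
      · exact absurd h' ht1
      · linear_combination h'
    -- d2 : a1 (1 - t²) = a3 (1 - t⁴) = a3 (1 - t)
    have D2 : a1 * (1 + t) = a3 := by
      have : (1 - t) * (a1 * (1 + t) - a3) = 0 := by
        linear_combination d2 - a1 * t ^ 2 * q1 + a3 * t ^ 4 * q1 - a3 * t * ht3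
      rcases mul_eq_zero.mp this with h' | h'
      · exact absurd h' ht1
      · linear_combination h'
    -- d3 : a1 (1 - t⁴) = a2 (1 - t⁵)
    have D3 : a1 = a2 * (1 + t) := by
      have : (1 - t) * (a1 - a2 * (1 + t)) = 0 := by
        linear_combination d3 - a1 * t ^ 4 * q1 + a2 * t ^ 5 * q1 + a1 * t * ht3
          - a2 * t ^ 2 * ht3
      rcases mul_eq_zero.mp this with h' | h'
      · exact absurd h' ht1
      · linear_combination h'
    have : 2 * a1 = 0 := by
      have e : a1 = a1 * (1 + t) ^ 3 := by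
        calc a1 = a2 * (1 + t) := D3
          _ = a3 * (1 + t) * (1 + t) := by rw [D1]
          _ = a1 * (1 + t) ^ 3 := by rw [← D2]; ring
      have e2 : (1 + t) ^ 3 = -1 := by
        linear_combination ((t + 2) : ℂ) * ht2
      rw [e2] at e
      linear_combination e
    exact ha1 (by linear_combination (1/2) * this)

/-- Every product of three linear forms is a sum of four cubes of linear forms. -/
lemma prod_four_cubes {σ : Type} (p q r : MvPolynomial σ ℂ)
    (hp : p.IsHomogeneous 1) (hq : q.IsHomogeneous 1) (hr : r.IsHomogeneous 1) :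
    ∃ L : Fin 4 → MvPolynomial σ ℂ, (∀ i, (L i).IsHomogeneous 1) ∧
      p * q * r = ∑ i, L i ^ 3 := by
  have hC : ∀ c : ℂ, (C c * p).IsHomogeneous 1 := by
    intro c
    have := (isHomogeneous_C σ c).mul hp
    simpa using this
  set p' : MvPolynomial σ ℂ := C (1 / 24) * p with hp'
  have h24 : (24 : MvPolynomial σ ℂ) * p' = p := by
    rw [hp', ← mul_assoc]
    have : (24 : MvPolynomial σ ℂ) = C 24 := (map_ofNat C 24).symm
    rw [this, ← C_mul]
    norm_num
  have hp1 : p'.IsHomogeneous 1 := hC _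
  refine ⟨![p' + q + r, -p' - q + r, -p' + q - r, p' - q - r], ?_, ?_⟩
  · intro i
    fin_cases i
    · exact (hp1.add hq).add hr
    · exact (hp1.neg.sub hq).add hr
    · exact (hp1.neg.add hq).sub hr
    · exact (hp1.sub hq).sub hr
  · rw [← h24]
    simp only [Fin.sum_univ_four, Matrix.cons_val_zero, Matrix.cons_val_one, Matrix.cons_val]
    ring

/-- Sums of cubes may be concatenated. -/
lemma add_cubes {σ : Type} (d : ℕ) (F G : MvPolynomial σ ℂ) {a b : ℕ}
    (hF : ∃ L : Fin a → MvPolynomial σ ℂ, (∀ i, (L i).IsHomogeneous 1) ∧ F = ∑ i, L i ^ d)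
    (hG : ∃ L : Fin b → MvPolynomial σ ℂ, (∀ i, (L i).IsHomogeneous 1) ∧ G = ∑ i, L i ^ d) :
    ∃ L : Fin (a + b) → MvPolynomial σ ℂ, (∀ i, (L i).IsHomogeneous 1) ∧
      F + G = ∑ i, L i ^ d := by
  obtain ⟨L, hL, rfl⟩ := hF
  obtain ⟨M, hM, rfl⟩ := hG
  refine ⟨Fin.append L M, ?_, ?_⟩
  · intro i
    induction i using Fin.addCases with
    | left i => rw [Fin.append_left]; exact hL i
    | right i => rw [Fin.append_right]; exact hM i
  · rw [Fin.sum_univ_add]
    simp [Fin.append_left, Fin.append_right]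

/-- The cubic `f = (x+y)(y+z)(z+x)`. -/
noncomputable def fEx : MvPolynomial (Fin 3) ℂ := (X 0 + X 1) * (X 1 + X 2) * (X 2 + X 0)

/-- The quadric `g = 2(xy+yz+zx)`. -/
noncomputable def gEx : MvPolynomial (Fin 3) ℂ := 2 * (X 0 * X 1 + X 1 * X 2 + X 2 * X 0)

lemma hX {σ : Type} (i : σ) : (X i : MvPolynomial σ ℂ).IsHomogeneous 1 := isHomogeneous_X ℂ i

lemma f_hom : fEx.IsHomogeneous 3 :=
  (((hX 0).add (hX 1)).mul ((hX 1).add (hX 2))).mul ((hX 2).add (hX 0))

lemma g_hom : gEx.IsHomogeneous 2 := by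
  have h2 : (2 : MvPolynomial (Fin 3) ℂ) = C 2 := (map_ofNat C 2).symm
  have := (isHomogeneous_C (Fin 3) (2 : ℂ)).mul
    ((((hX 0).mul (hX 1)).add ((hX 1).mul (hX 2))).add ((hX 2).mul (hX 0)))
  unfold gEx
  rw [h2]
  simpa using this

lemma f_ne : fEx ≠ 0 := by
  intro h
  have := congrArg (eval ![1, 1, 1]) h
  simp [fEx] at this

lemma g_ne : gEx ≠ 0 := by
  intro h
  have := congrArg (eval ![1, 1, 1]) h
  simp [gEx] at this
  norm_num at this

/-- `f + u g` is a sum of five cubes. -/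
lemma upper : waringRank 3 (adjoinVar fEx gEx) ≤ 5 := by
  obtain ⟨α, hα⟩ := IsAlgClosed.exists_pow_nat_eq (-(1 / 3) : ℂ) (n := 3) (by norm_num)
  obtain ⟨β, hβ⟩ := IsAlgClosed.exists_pow_nat_eq ((2 / 3) : ℂ) (n := 3) (by norm_num)
  obtain ⟨γ, hγ⟩ := IsAlgClosed.exists_pow_nat_eq ((1 / 3) : ℂ) (n := 3) (by norm_num)
  have hC : ∀ (c : ℂ) (p : MvPolynomial (Option (Fin 3)) ℂ), p.IsHomogeneous 1 →
      (C c * p).IsHomogeneous 1 := by
    intro c p hp
    have := (isHomogeneous_C (Option (Fin 3)) c).mul hp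
    simpa using this
  refine Nat.sInf_le ⟨![C α * (X none + X (some 0)), C α * (X none + X (some 1)),
    C α * (X none + X (some 2)), C β * X none,
    C γ * (X none + X (some 0) + X (some 1) + X (some 2))], ?_, ?_⟩
  · intro i
    fin_cases i
    · exact hC _ _ ((hX _).add (hX _))
    · exact hC _ _ ((hX _).add (hX _))
    · exact hC _ _ ((hX _).add (hX _))
    · exact hC _ _ (hX _)
    · exact hC _ _ ((((hX _).add (hX _)).add (hX _)).add (hX _))
  · simp only [Fin.sum_univ_five, Matrix.cons_val_zero, Matrix.cons_val_one, Matrix.cons_val,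
      mul_pow, ← C_pow, hα, hβ, hγ]
    simp only [adjoinVar, fEx, gEx, map_mul, map_add, rename_X, map_ofNat]
    have h3 : ((3 : MvPolynomial (Option (Fin 3)) ℂ)) = C 3 := (map_ofNat C 3).symm
    have h2' : ((2 : MvPolynomial (Option (Fin 3)) ℂ)) = C 2 := (map_ofNat C 2).symm
    have k1 : (3 : MvPolynomial (Option (Fin 3)) ℂ) * C (-(1 / 3)) = -1 := by
      rw [h3, ← C_mul]; norm_num
    have k2 : (3 : MvPolynomial (Option (Fin 3)) ℂ) * C (2 / 3) = 2 := by
      rw [h3, h2', ← C_mul]; norm_num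
    have k3 : (3 : MvPolynomial (Option (Fin 3)) ℂ) * C (1 / 3) = 1 := by
      rw [h3, ← C_mul]; norm_num
    have h3' : (3 : MvPolynomial (Option (Fin 3)) ℂ) ≠ 0 := by
      rw [h3]; simp
    apply mul_left_cancel₀ h3'
    linear_combination
      -((X none + X (some 0)) ^ 3 + (X none + X (some 1)) ^ 3 + (X none + X (some 2)) ^ 3) * k1
      - (X none) ^ 3 * k2 - (X none + X (some 0) + X (some 1) + X (some 2)) ^ 3 * k3

/-- `f + v g` is never a sum of fewer than three cubes. -/
lemma lower (v : MvPolynomial (Fin 3) ℂ) (hv : v.IsHomogeneous 1) :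
    3 ≤ waringRank 3 (fEx + v * gEx) := by
  have hne : {w : ℕ | ∃ L : Fin w → MvPolynomial (Fin 3) ℂ,
      (∀ i, (L i).IsHomogeneous 1) ∧ fEx + v * gEx = ∑ i, L i ^ 3}.Nonempty := by
    have h2v : (2 * v).IsHomogeneous 1 := by
      have h2 : (2 : MvPolynomial (Fin 3) ℂ) = C 2 := (map_ofNat C 2).symm
      have := (isHomogeneous_C (Fin 3) (2 : ℂ)).mul hv
      rw [h2]
      simpa using this
    have A := prod_four_cubes (X 0 + X 1 : MvPolynomial (Fin 3) ℂ) (X 1 + X 2) (X 2 + X 0)
      ((hX 0).add (hX 1)) ((hX 1).add (hX 2)) ((hX 2).add (hX 0))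
    have B := prod_four_cubes (2 * v) (X 0) (X 1) h2v (hX _) (hX _)
    have D := prod_four_cubes (2 * v) (X 1) (X 2) h2v (hX _) (hX _)
    have E := prod_four_cubes (2 * v) (X 2) (X 0) h2v (hX _) (hX _)
    have H := add_cubes 3 _ _ (add_cubes 3 _ _ (add_cubes 3 _ _ A B) D) E
    refine ⟨4 + 4 + 4 + 4, ?_⟩
    · have e : fEx + v * gEx = (X 0 + X 1) * (X 1 + X 2) * (X 2 + X 0) + 2 * v * X 0 * X 1
          + 2 * v * X 1 * X 2 + 2 * v * X 2 * X 0 := by
        unfold fEx gEx; ring
      rw [Set.mem_ofPred_eq, e]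
      exact H
  by_contra hlt
  push Not at hlt
  obtain ⟨L, hL, hF⟩ := Nat.sInf_mem hne
  change waringRank 3 (fEx + v * gEx) < 3 at hlt
  -- pad with zeros to get exactly two cubes
  have pad : ∀ (w : ℕ) (L : Fin w → MvPolynomial (Fin 3) ℂ), w < 3 →
      (∀ i, (L i).IsHomogeneous 1) → ∃ P Q : MvPolynomial (Fin 3) ℂ, P.IsHomogeneous 1 ∧
      Q.IsHomogeneous 1 ∧ ∑ i, L i ^ 3 = P ^ 3 + Q ^ 3 := by
    intro w L hw hL
    interval_cases w
    · exact ⟨0, 0, isHomogeneous_zero _ _ _, isHomogeneous_zero _ _ _, by simp⟩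
    · exact ⟨L 0, 0, hL 0, isHomogeneous_zero _ _ _, by simp⟩
    · exact ⟨L 0, L 1, hL 0, hL 1, by simp [Fin.sum_univ_two]⟩
  obtain ⟨P, Q, hP, hQ, hPQ⟩ := pad _ L hlt hL
  rw [← hF] at hPQ
  obtain ⟨v1, v2, v3, hv'⟩ := eval_linear v hv
  obtain ⟨a1, a2, a3, hP'⟩ := eval_linear P hP
  obtain ⟨b1, b2, b3, hQ'⟩ := eval_linear Q hQ
  refine no_two_cubes (1 + 2 * v1) (1 + 2 * v2) (1 + 2 * v3) a1 a2 a3 b1 b2 b3 ?_
  intro x y z
  have := congrArg (eval ![x, y, z]) hPQ
  rw [map_add, map_add, map_pow, map_pow, map_mul, hv', hP', hQ'] at this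
  simp only [fEx, gEx, map_mul, map_add, eval_X, map_ofNat, Matrix.cons_val_zero,
    Matrix.cons_val_one, Matrix.cons_val] at this
  linear_combination this

/-- The inequality `WR (f + u g) ≥ d + min_v WR (f + v g)` fails for `n = d = 3`. -/
theorem result : ∃ (n d : ℕ) (f g : MvPolynomial (Fin n) ℂ),
    1 ≤ n ∧ 1 ≤ d ∧ f.IsHomogeneous d ∧ g.IsHomogeneous (d - 1) ∧ f ≠ 0 ∧ g ≠ 0 ∧
    waringRank d (adjoinVar f g) <
      d + sInf {w : ℕ | ∃ v : MvPolynomial (Fin n) ℂ, v.IsHomogeneous 1 ∧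
        w = waringRank d (f + v * g)} := by
  refine ⟨3, 3, fEx, gEx, by norm_num, by norm_num, f_hom, g_hom, f_ne, g_ne, ?_⟩
  have h1 := upper
  have h2 : 3 ≤ sInf {w : ℕ | ∃ v : MvPolynomial (Fin 3) ℂ, v.IsHomogeneous 1 ∧
        w = waringRank 3 (fEx + v * gEx)} := by
    apply le_csInf
    · exact ⟨_, 0, isHomogeneous_zero _ _ _, rfl⟩
    · rintro w ⟨v, hv, rfl⟩
      exact lower v hv
  omega

end Pool.Agent.Results.MP_1e0c69_ag.AdjoinVariable
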